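import Pool.Agent.W792.WA.Stm
import Pool.Agent.W792.LL.Dia
import Pool.Agent.W918.LL.Opr

set_option autoImplicit false

namespace Pool.Agent.W214.WA

open MeasureTheory Filter Pool.Agent.W792.LL Pool.Agent.W792.WA
open scoped Topology

noncomputable section

/-! ### Algebra -/

lemma alg {A0 : Type} [Ring A0] (c S u b w bW A AW Z : A0)
    (hub : u * b = b * u) (hb1 : b * (1 - u * S) = 1) (hb2 : (1 - u * S) * b = 1)
    (hw1 : bW * (1 - w * S) = 1) (hwb : w * bW = bW * w)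
    (hA1 : A * (1 - u * c) = 1) (hAW2 : (1 - w * c) * AW = 1)
    (hZ : Z * (1 - (w * bW - u * b) * ((c - S) * (A * (1 - u * S)))) = 1) :
    AW = A * (1 - u * S) * Z * bW := by
  have e1 : b * (1 - u * c) = 1 - u * b * (c - S) := by
    have : b - b * u * S = 1 := by rw [← hb1]; noncomm_ring
    calc b * (1 - u * c) = (b - b * u * S) - b * u * (c - S) := by noncomm_ring
      _ = 1 - u * b * (c - S) := by rw [this, hub]
  have e2 : bW * (1 - w * c) = 1 - w * bW * (c - S) := by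
    have : bW - bW * w * S = 1 := by rw [← hw1]; noncomm_ring
    calc bW * (1 - w * c) = (bW - bW * w * S) - bW * w * (c - S) := by noncomm_ring
      _ = 1 - w * bW * (c - S) := by rw [this, hwb]
  have e3 : (1 - (w * bW - u * b) * ((c - S) * (A * (1 - u * S)))) * (b * (1 - u * c)) =
      bW * (1 - w * c) := by
    calc (1 - (w * bW - u * b) * ((c - S) * (A * (1 - u * S)))) * (b * (1 - u * c)) =
        b * (1 - u * c) - (w * bW - u * b) * (c - S) * A * ((1 - u * S) * b) * (1 - u * c) := by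
          noncomm_ring
      _ = b * (1 - u * c) - (w * bW - u * b) * (c - S) * (A * (1 - u * c)) := by
          rw [hb2]; noncomm_ring
      _ = bW * (1 - w * c) := by
          rw [hA1, e1, e2]; noncomm_ring
  calc AW = A * (1 - u * c) * AW := by rw [hA1, one_mul]
    _ = A * ((1 - u * S) * b) * (1 - u * c) * AW := by rw [hb2, mul_one]
    _ = A * (1 - u * S) * (Z * (1 - (w * bW - u * b) * ((c - S) * (A * (1 - u * S))))) *
        (b * (1 - u * c)) * AW := by rw [hZ]; noncomm_ring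
    _ = A * (1 - u * S) * Z * ((1 - (w * bW - u * b) * ((c - S) * (A * (1 - u * S)))) *
        (b * (1 - u * c))) * AW := by noncomm_ring
    _ = A * (1 - u * S) * Z * bW * ((1 - w * c) * AW) := by rw [e3]; noncomm_ring
    _ = A * (1 - u * S) * Z * bW := by rw [hAW2, mul_one]

lemma inv_facts {A0 : Type} [NormedRing A0] [CompleteSpace A0] (h1 : ‖(1 : A0)‖ ≤ 1) (x : A0)
    (q : ℝ) (hq : q < 1) (hx : ‖x‖ ≤ q) : (1 - x) * Ring.inverse (1 - x) = 1 ∧
    Ring.inverse (1 - x) * (1 - x) = 1 ∧ ‖Ring.inverse (1 - x)‖ ≤ 1 / (1 - q) := by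
  have hu : IsUnit (1 - x) := isUnit_one_sub_of_norm_lt_one (lt_of_le_of_lt hx hq)
  have h2 := Ring.mul_inverse_cancel _ hu
  refine ⟨h2, Ring.inverse_mul_cancel _ hu, ?_⟩
  have h3 : Ring.inverse (1 - x) = 1 + x * Ring.inverse (1 - x) := by
    rw [sub_mul, one_mul, sub_eq_iff_eq_add] at h2
    exact h2
  have h4 : ‖Ring.inverse (1 - x)‖ ≤ 1 + q * ‖Ring.inverse (1 - x)‖ := by
    calc ‖Ring.inverse (1 - x)‖ = ‖1 + x * Ring.inverse (1 - x)‖ := by rw [← h3]
      _ ≤ ‖(1 : A0)‖ + ‖x * Ring.inverse (1 - x)‖ := norm_add_le _ _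
      _ ≤ 1 + ‖x‖ * ‖Ring.inverse (1 - x)‖ := add_le_add h1 (norm_mul_le _ _)
      _ ≤ 1 + q * ‖Ring.inverse (1 - x)‖ := by
          have := mul_le_mul_of_nonneg_right hx (norm_nonneg (Ring.inverse (1 - x)))
          linarith
  rw [le_div_iff₀ (by linarith)]
  linarith

lemma geo {A0 : Type} [Ring A0] (x Z : A0) (h : (1 - x) * Z = 1) (N : ℕ) :
    Z = ∑ n ∈ Finset.range N, x ^ n + x ^ N * Z := by
  induction N with
  | zero => simp
  | succ N ih =>
    have h3 : Z = 1 + x * Z := by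
      rw [sub_mul, one_mul, sub_eq_iff_eq_add] at h
      exact h
    rw [Finset.sum_range_succ]
    calc Z = ∑ n ∈ Finset.range N, x ^ n + x ^ N * Z := ih
      _ = ∑ n ∈ Finset.range N, x ^ n + x ^ N * (1 + x * Z) := by rw [← h3]
      _ = ∑ n ∈ Finset.range N, x ^ n + x ^ N + x ^ (N + 1) * Z := by
          rw [pow_succ]; noncomm_ring

/-! ### Vectors -/

variable {d : ℕ} {Ω : Type} [MeasurableSpace Ω]

lemma apply_eq_inner (f : l2 (Fin d → ℤ)) (x : Fin d → ℤ) : f x = inner ℂ (dl x) f := by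
  unfold dl
  rw [lp.inner_single_left]
  simp

lemma norm_dl (x : Fin d → ℤ) : ‖(dl x : l2 (Fin d → ℤ))‖ = 1 := by
  unfold dl
  rw [lp.norm_single (by norm_num)]
  simp

lemma norm_apply_le (f : l2 (Fin d → ℤ)) (x : Fin d → ℤ) : ‖f x‖ ≤ ‖f‖ :=
  lp.norm_apply_le_norm (by norm_num) f x

lemma single_eq (x : Fin d → ℤ) (a : ℂ) :
    (lp.single 2 x a : l2 (Fin d → ℤ)) = a • dl x := by
  unfold dl
  rw [← lp.single_smul]
  simp

lemma hasSum_dl (f : l2 (Fin d → ℤ)) : HasSum (fun x => f x • (dl x : l2 (Fin d → ℤ))) f := by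
  have := lp.hasSum_single (E := fun _ : Fin d → ℤ => ℂ) (p := 2) (by norm_num) f
  simpa only [single_eq] using this

lemma sm (X : Ω → l2 (Fin d → ℤ)) (h : ∀ x, Measurable fun v => X v x) : StronglyMeasurable X := by
  refine stronglyMeasurable_of_tendsto (atTop : Filter (Finset (Fin d → ℤ)))
    (f := fun F v => ∑ x ∈ F, X v x • (dl x : l2 (Fin d → ℤ))) ?_ ?_
  · intro F
    exact Finset.stronglyMeasurable_fun_sum _ fun x _ =>
      ((h x).stronglyMeasurable).smul_const (dl x)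
  · rw [tendsto_pi_nhds]
    intro v
    exact hasSum_dl (X v)

lemma integrable_vec (μ : Measure Ω) [IsProbabilityMeasure μ] (X : Ω → l2 (Fin d → ℤ)) (K : ℝ)
    (h : ∀ x, Measurable fun v => X v x) (hb : ∀ v, ‖X v‖ ≤ K) : Integrable X μ :=
  Integrable.of_bound (sm X h).aestronglyMeasurable K (Eventually.of_forall hb)

lemma int_apply (μ : Measure Ω) (X : Ω → l2 (Fin d → ℤ)) (hX : Integrable X μ) (x : Fin d → ℤ) :
    (∫ v, X v ∂μ) x = ∫ v, X v x ∂μ := by
  rw [apply_eq_inner, ← integral_inner hX]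
  simp only [← apply_eq_inner]

lemma int_eq (μ : Measure Ω) (X : Ω → l2 (Fin d → ℤ)) (hX : Integrable X μ) (y : l2 (Fin d → ℤ))
    (h : ∀ x, ∫ v, X v x ∂μ = y x) : ∫ v, X v ∂μ = y := by
  ext x
  rw [int_apply μ X hX, h]

lemma norm_le_of_inner (y : l2 (Fin d → ℤ)) (e : ℝ) (he : 0 ≤ e)
    (h : ∀ w : l2 (Fin d → ℤ), ‖w‖ ≤ 1 → ‖inner ℂ w y‖ ≤ e) : ‖y‖ ≤ e := by
  by_cases hy : y = 0
  · rw [hy, norm_zero]; exact he
  · have hy0 : 0 < ‖y‖ := norm_pos_iff.mpr hy
    have h1 := h (((1 / ‖y‖ : ℝ) : ℂ) • y) (by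
      rw [norm_smul, Complex.norm_real, Real.norm_eq_abs, abs_of_pos (by positivity)]
      field_simp
      exact le_rfl)
    rw [inner_smul_left, norm_mul, inner_self_eq_norm_sq_to_K] at h1
    have h2 : ‖y‖⁻¹ * ‖y‖ ^ 2 = ‖y‖ := by field_simp
    simp at h1
    rwa [h2] at h1

/-- a local operator sees only the box -/
lemma local_bound (T : l2 (Fin d → ℤ) →L[ℂ] l2 (Fin d → ℤ)) (C : ℝ) (R : ℕ) (hT : ‖T‖ ≤ C)
    (hr : ∀ y, ¬ nb R 0 y → T (dl y) 0 = 0) (y : l2 (Fin d → ℤ)) :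
    ‖(T y) 0‖ ≤ C * ∑ x ∈ bx R (0 : Fin d → ℤ), ‖y x‖ := by
  have h1 : HasSum (fun x => y x * (T (dl x)) 0) ((T y) 0) := by
    have h2 := (hasSum_dl y).mapL T
    have h3 := h2.mapL (innerSL ℂ (dl (0 : Fin d → ℤ)))
    simp only [innerSL_apply_apply, ← apply_eq_inner, map_smul] at h3
    exact h3
  have h4 : ∀ x ∉ bx R (0 : Fin d → ℤ), y x * (T (dl x)) 0 = 0 := by
    intro x hx
    rw [hr x, mul_zero]
    intro hn
    apply hx
    unfold bx
    rw [Finset.mem_Icc]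
    constructor <;> intro i <;> have := abs_le.mp (hn i) <;> simp at this ⊢ <;> omega
  have h5 : (T y) 0 = ∑ x ∈ bx R (0 : Fin d → ℤ), y x * (T (dl x)) 0 :=
    h1.unique (hasSum_sum_of_ne_finset_zero h4)
  rw [h5, Finset.mul_sum]
  refine (norm_sum_le _ _).trans (Finset.sum_le_sum fun x _ => ?_)
  rw [norm_mul, mul_comm]
  refine mul_le_mul_of_nonneg_right ?_ (norm_nonneg _)
  calc ‖(T (dl x)) 0‖ ≤ ‖T (dl x)‖ := norm_apply_le _ _
    _ ≤ ‖T‖ * ‖(dl x : l2 (Fin d → ℤ))‖ := T.le_opNorm _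
    _ ≤ C := by rw [norm_dl, mul_one]; exact hT

end

end Pool.Agent.W214.WA
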