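import Pool.Agent.W214.WA.Gen

set_option autoImplicit false

namespace Pool.Agent.W214.WA

open MeasureTheory Filter Pool.Agent.W792.LL Pool.Agent.W792.WA
open scoped Topology

noncomputable section

variable {d : ℕ}

lemma norm_opr (m : C(UnitAddTorus (Fin d), ℂ)) : ‖opr m‖ ≤ ‖m‖ :=
  (Pool.Agent.W918.LL.main d m m).2.1

lemma opr_mul (m m' : C(UnitAddTorus (Fin d), ℂ)) : opr (m * m') = opr m * opr m' :=
  (Pool.Agent.W918.LL.main d m m').2.2.1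

lemma opr_add (m m' : C(UnitAddTorus (Fin d), ℂ)) : opr (m + m') = opr m + opr m' :=
  (Pool.Agent.W918.LL.main d m m').2.2.2.1

lemma opr_smul (a : ℂ) (m : C(UnitAddTorus (Fin d), ℂ)) : opr (a • m) = a • opr m :=
  (Pool.Agent.W918.LL.main d m m).2.2.2.2.1 a

lemma opr_one : opr (1 : C(UnitAddTorus (Fin d), ℂ)) = 1 :=
  (Pool.Agent.W918.LL.main d 1 1).2.2.2.2.2.1

lemma opr_sub (m m' : C(UnitAddTorus (Fin d), ℂ)) : opr (m - m') = opr m - opr m' := by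
  have h : m - m' = m + (-1 : ℂ) • m' := by
    ext k
    simp [sub_eq_add_neg]
  rw [h, opr_add, opr_smul, neg_one_smul, ← sub_eq_add_neg]

lemma norm_one_op : ‖(1 : l2 (Fin d → ℤ) →L[ℂ] l2 (Fin d → ℤ))‖ ≤ 1 :=
  ContinuousLinearMap.norm_id_le

lemma norm_cay (x : ℝ) : ‖cay x‖ = 1 := by
  unfold cay
  have h1 : (x : ℂ) - Complex.I = (starRingEnd ℂ) ((x : ℂ) + Complex.I) := by
    simp [sub_eq_add_neg]
  have h2 : (x : ℂ) + Complex.I ≠ 0 := by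
    intro h
    have := congrArg Complex.im h
    simp at this
  rw [norm_div, h1, Complex.norm_conj, div_self (norm_ne_zero_iff.mpr h2)]

lemma norm_dc (v : (Fin d → ℤ) → ℝ) : ‖dc v‖ ≤ 1 :=
  (Pool.Agent.W792.LL.DiaP.main (Fin d → ℤ) (fun x => cay (v x)) fun x => (norm_cay _).le).2

/-- `1 / (1 - m s)` -/
def DD (s m : C(UnitAddTorus (Fin d), ℂ)) : C(UnitAddTorus (Fin d), ℂ) := Ring.inverse (1 - m * s)

lemma DD_facts (s m : C(UnitAddTorus (Fin d), ℂ)) (hs : ‖s‖ ≤ 1) (hm : ‖m‖ ≤ 1 / 16) :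
    (1 - m * s) * DD s m = 1 ∧ DD s m * (1 - m * s) = 1 ∧ ‖DD s m‖ ≤ 16 / 15 := by
  have h1 : ‖m * s‖ ≤ 1 / 16 := by
    calc ‖m * s‖ ≤ ‖m‖ * ‖s‖ := norm_mul_le _ _
      _ ≤ 1 / 16 * 1 := mul_le_mul hm hs (norm_nonneg _) (by norm_num)
      _ = 1 / 16 := by norm_num
  have h2 := inv_facts (norm_one (α := C(UnitAddTorus (Fin d), ℂ))).le (m * s) (1 / 16)
    (by norm_num) h1
  refine ⟨h2.1, h2.2.1, h2.2.2.trans (by norm_num)⟩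

/-- the difference `W / (1 - W s) - U / (1 - U s)` -/
def Rd (s U W : C(UnitAddTorus (Fin d), ℂ)) : C(UnitAddTorus (Fin d), ℂ) :=
  W * DD s W - U * DD s U

lemma DD_apply (s m : C(UnitAddTorus (Fin d), ℂ)) (hs : ‖s‖ ≤ 1) (hm : ‖m‖ ≤ 1 / 16)
    (k : UnitAddTorus (Fin d)) : 1 - m k * s k ≠ 0 ∧ DD s m k = 1 / (1 - m k * s k) := by
  have h1 := (DD_facts s m hs hm).1
  have h2 := congrArg (fun f : C(UnitAddTorus (Fin d), ℂ) => f k) h1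
  simp only [ContinuousMap.mul_apply, ContinuousMap.sub_apply, ContinuousMap.one_apply] at h2
  have h3 : 1 - m k * s k ≠ 0 := left_ne_zero_of_mul_eq_one h2
  exact ⟨h3, by rw [eq_div_iff h3, mul_comm]; exact h2⟩

lemma Rd_coe (s U W : C(UnitAddTorus (Fin d), ℂ)) (hs : ‖s‖ ≤ 1) (hU : ‖U‖ ≤ 1 / 16)
    (hW : ‖W‖ ≤ 1 / 16) :
    (fun k => W k / (1 - W k * s k) - U k / (1 - U k * s k)) = ⇑(Rd s U W) := by
  funext k
  unfold Rd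
  simp only [ContinuousMap.sub_apply, ContinuousMap.mul_apply]
  rw [(DD_apply s W hs hW k).2, (DD_apply s U hs hU k).2]
  ring

lemma norm_Rd (s U W : C(UnitAddTorus (Fin d), ℂ)) (hs : ‖s‖ ≤ 1) (hU : ‖U‖ ≤ 1 / 16)
    (hW : ‖W‖ ≤ 1 / 16) : ‖Rd s U W‖ ≤ 2 / 15 := by
  have h : ∀ m : C(UnitAddTorus (Fin d), ℂ), ‖m‖ ≤ 1 / 16 → ‖m * DD s m‖ ≤ 1 / 15 := by
    intro m hm
    calc ‖m * DD s m‖ ≤ ‖m‖ * ‖DD s m‖ := norm_mul_le _ _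
      _ ≤ 1 / 16 * (16 / 15) :=
          mul_le_mul hm (DD_facts s m hs hm).2.2 (norm_nonneg _) (by norm_num)
      _ = 1 / 15 := by norm_num
  unfold Rd
  calc ‖W * DD s W - U * DD s U‖ ≤ ‖W * DD s W‖ + ‖U * DD s U‖ := norm_sub_le _ _
    _ ≤ 2 / 15 := by linarith [h W hW, h U hU]

lemma DD_sub (s U W : C(UnitAddTorus (Fin d), ℂ)) (hs : ‖s‖ ≤ 1) (hU : ‖U‖ ≤ 1 / 16)
    (hW : ‖W‖ ≤ 1 / 16) : DD s W - DD s U = s * Rd s U W := by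
  have h : ∀ m : C(UnitAddTorus (Fin d), ℂ), ‖m‖ ≤ 1 / 16 → DD s m = 1 + s * (m * DD s m) := by
    intro m hm
    have := (DD_facts s m hs hm).1
    linear_combination this
  unfold Rd
  linear_combination h W hW - h U hU

/-- the operator `L = (1 - U c)⁻¹ (1 - U s)` -/
def LLv (s U : C(UnitAddTorus (Fin d), ℂ)) (v : (Fin d → ℤ) → ℝ) :
    l2 (Fin d → ℤ) →L[ℂ] l2 (Fin d → ℤ) := rsv U v * opr (1 - U * s)

/-- the operator `(c - s) L` -/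
def TTv (s U : C(UnitAddTorus (Fin d), ℂ)) (v : (Fin d → ℤ) → ℝ) :
    l2 (Fin d → ℤ) →L[ℂ] l2 (Fin d → ℤ) := (dc v - opr s) * LLv s U v

/-- the inverse of `1 - Rd TT` -/
def ZZ (s U W : C(UnitAddTorus (Fin d), ℂ)) (v : (Fin d → ℤ) → ℝ) :
    l2 (Fin d → ℤ) →L[ℂ] l2 (Fin d → ℤ) := Ring.inverse (1 - opr (Rd s U W) * TTv s U v)

lemma rsv_facts (m : C(UnitAddTorus (Fin d), ℂ)) (hm : ‖m‖ ≤ 1 / 16) (v : (Fin d → ℤ) → ℝ) :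
    (1 - opr m * dc v) * rsv m v = 1 ∧ rsv m v * (1 - opr m * dc v) = 1 ∧
    ‖rsv m v‖ ≤ 16 / 15 ∧ ‖opr m * dc v‖ ≤ 1 / 16 := by
  have h1 : ‖opr m * dc v‖ ≤ 1 / 16 := by
    calc ‖opr m * dc v‖ ≤ ‖opr m‖ * ‖dc v‖ := norm_mul_le _ _
      _ ≤ 1 / 16 * 1 :=
          mul_le_mul ((norm_opr m).trans hm) (norm_dc v) (norm_nonneg _) (by norm_num)
      _ = 1 / 16 := by norm_num
  have h2 := inv_facts norm_one_op (opr m * dc v) (1 / 16) (by norm_num) h1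
  exact ⟨h2.1, h2.2.1, h2.2.2.trans (by norm_num), h1⟩

lemma norm_one_sub (s m : C(UnitAddTorus (Fin d), ℂ)) (hs : ‖s‖ ≤ 1) (hm : ‖m‖ ≤ 1 / 16) :
    ‖opr (1 - m * s)‖ ≤ 17 / 16 := by
  refine (norm_opr _).trans ?_
  calc ‖1 - m * s‖ ≤ ‖(1 : C(UnitAddTorus (Fin d), ℂ))‖ + ‖m * s‖ := norm_sub_le _ _
    _ ≤ 1 + ‖m‖ * ‖s‖ := add_le_add norm_one.le (norm_mul_le _ _)
    _ ≤ 1 + 1 / 16 * 1 := by
        have := mul_le_mul hm hs (norm_nonneg _) (by norm_num : (0 : ℝ) ≤ 1 / 16)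
        linarith
    _ = 17 / 16 := by norm_num

lemma norm_LLv (s U : C(UnitAddTorus (Fin d), ℂ)) (hs : ‖s‖ ≤ 1) (hU : ‖U‖ ≤ 1 / 16)
    (v : (Fin d → ℤ) → ℝ) : ‖LLv s U v‖ ≤ 17 / 15 := by
  calc ‖LLv s U v‖ ≤ ‖rsv U v‖ * ‖opr (1 - U * s)‖ := norm_mul_le _ _
    _ ≤ 16 / 15 * (17 / 16) := mul_le_mul (rsv_facts U hU v).2.2.1 (norm_one_sub s U hs hU)
        (norm_nonneg _) (by norm_num)
    _ = 17 / 15 := by norm_num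

lemma norm_TTv (s U : C(UnitAddTorus (Fin d), ℂ)) (hs : ‖s‖ ≤ 1) (hU : ‖U‖ ≤ 1 / 16)
    (v : (Fin d → ℤ) → ℝ) : ‖TTv s U v‖ ≤ 34 / 15 := by
  have h1 : ‖dc v - opr s‖ ≤ 2 := by
    calc ‖dc v - opr s‖ ≤ ‖dc v‖ + ‖opr s‖ := norm_sub_le _ _
      _ ≤ 2 := by linarith [norm_dc v, (norm_opr s).trans hs]
  calc ‖TTv s U v‖ ≤ ‖dc v - opr s‖ * ‖LLv s U v‖ := norm_mul_le _ _
    _ ≤ 2 * (17 / 15) := mul_le_mul h1 (norm_LLv s U hs hU v) (norm_nonneg _) (by norm_num)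
    _ = 34 / 15 := by norm_num

lemma norm_XX (s U W : C(UnitAddTorus (Fin d), ℂ)) (hs : ‖s‖ ≤ 1) (hU : ‖U‖ ≤ 1 / 16)
    (hW : ‖W‖ ≤ 1 / 16) (v : (Fin d → ℤ) → ℝ) : ‖opr (Rd s U W) * TTv s U v‖ ≤ 1 / 3 := by
  calc ‖opr (Rd s U W) * TTv s U v‖ ≤ ‖opr (Rd s U W)‖ * ‖TTv s U v‖ := norm_mul_le _ _
    _ ≤ 2 / 15 * (34 / 15) := mul_le_mul ((norm_opr _).trans (norm_Rd s U W hs hU hW))
        (norm_TTv s U hs hU v) (norm_nonneg _) (by norm_num)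
    _ ≤ 1 / 3 := by norm_num

lemma ZZ_facts (s U W : C(UnitAddTorus (Fin d), ℂ)) (hs : ‖s‖ ≤ 1) (hU : ‖U‖ ≤ 1 / 16)
    (hW : ‖W‖ ≤ 1 / 16) (v : (Fin d → ℤ) → ℝ) :
    (1 - opr (Rd s U W) * TTv s U v) * ZZ s U W v = 1 ∧
    ZZ s U W v * (1 - opr (Rd s U W) * TTv s U v) = 1 ∧ ‖ZZ s U W v‖ ≤ 3 / 2 := by
  have h2 := inv_facts norm_one_op (opr (Rd s U W) * TTv s U v) (1 / 3) (by norm_num)
    (norm_XX s U W hs hU hW v)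
  exact ⟨h2.1, h2.2.1, h2.2.2.trans (by norm_num)⟩

lemma rsv_eq (s U W : C(UnitAddTorus (Fin d), ℂ)) (hs : ‖s‖ ≤ 1) (hU : ‖U‖ ≤ 1 / 16)
    (hW : ‖W‖ ≤ 1 / 16) (v : (Fin d → ℤ) → ℝ) :
    rsv W v = LLv s U v * ZZ s U W v * opr (DD s W) := by
  have e : ∀ m : C(UnitAddTorus (Fin d), ℂ), opr (1 - m * s) = 1 - opr m * opr s := by
    intro m
    rw [opr_sub, opr_one, opr_mul]
  have key := alg (dc v) (opr s) (opr U) (opr (DD s U)) (opr W) (opr (DD s W)) (rsv U v)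
    (rsv W v) (ZZ s U W v) (by rw [← opr_mul, ← opr_mul, mul_comm])
    (by rw [← e, ← opr_mul, (DD_facts s U hs hU).2.1, opr_one])
    (by rw [← e, ← opr_mul, (DD_facts s U hs hU).1, opr_one])
    (by rw [← e, ← opr_mul, (DD_facts s W hs hW).2.1, opr_one])
    (by rw [← opr_mul, ← opr_mul, mul_comm]) (rsv_facts U hU v).2.1 (rsv_facts W hW v).1
    (by
      have h := (ZZ_facts s U W hs hU hW v).2.1
      have e2 : opr W * opr (DD s W) - opr U * opr (DD s U) = opr (Rd s U W) := by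
        unfold Rd
        rw [opr_sub, opr_mul, opr_mul]
      rw [e2, ← e]
      exact h)
  rw [key, ← e]
  rfl

lemma rsv_eq' (s U : C(UnitAddTorus (Fin d), ℂ)) (hs : ‖s‖ ≤ 1) (hU : ‖U‖ ≤ 1 / 16)
    (v : (Fin d → ℤ) → ℝ) : rsv U v = LLv s U v * opr (DD s U) := by
  unfold LLv
  rw [mul_assoc, ← opr_mul, (DD_facts s U hs hU).1, opr_one, mul_one]

lemma tt_eq (s U W : C(UnitAddTorus (Fin d), ℂ)) (hs : ‖s‖ ≤ 1) (hU : ‖U‖ ≤ 1 / 16)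
    (hW : ‖W‖ ≤ 1 / 16) (v : (Fin d → ℤ) → ℝ) :
    (dc v - opr s) * (rsv W v * opr (1 - W * s)) = TTv s U v * ZZ s U W v := by
  rw [rsv_eq s U W hs hU hW v, mul_assoc (LLv s U v * ZZ s U W v), ← opr_mul,
    (DD_facts s W hs hW).2.1, opr_one, mul_one]
  unfold TTv
  noncomm_ring

/-! ### Quasi-locality -/

lemma ql_LLv (hQ : S_QL) (s U : C(UnitAddTorus (Fin d), ℂ)) (hU : ‖U‖ ≤ 1 / 16) :
    IsQL (LLv s U) := by
  obtain ⟨h1, h2, h3, h4, h5⟩ := hQ d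
  have h6 : IsQL (fun v : (Fin d → ℤ) → ℝ => opr U * dc v) := (h3 _ _ (h1 U) h2).2.2
  have h7 : IsQL (fun v : (Fin d → ℤ) → ℝ => rsv U v) :=
    h4 _ (1 / 16) h6 (by norm_num) fun v => (rsv_facts U hU v).2.2.2
  exact (h3 _ _ h7 (h1 (1 - U * s))).2.2

lemma ql_TTv (hQ : S_QL) (s U : C(UnitAddTorus (Fin d), ℂ)) (hU : ‖U‖ ≤ 1 / 16) :
    IsQL (TTv s U) := by
  obtain ⟨h1, h2, h3, h4, h5⟩ := hQ d
  exact (h3 _ _ (h3 _ _ h2 (h1 s)).2.1 (ql_LLv hQ s U hU)).2.2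

lemma ql_pow (hQ : S_QL) (Q : ((Fin d → ℤ) → ℝ) → (l2 (Fin d → ℤ) →L[ℂ] l2 (Fin d → ℤ)))
    (h : IsQL Q) (n : ℕ) : IsQL (fun v => Q v ^ n) := by
  obtain ⟨h1, h2, h3, h4, h5⟩ := hQ d
  induction n with
  | zero =>
    have := h1 1
    rw [opr_one] at this
    simpa using this
  | succ n ih =>
    simp only [pow_succ]
    exact (h3 _ _ ih h).2.2

lemma ql_XX (hQ : S_QL) (s U W : C(UnitAddTorus (Fin d), ℂ)) (hU : ‖U‖ ≤ 1 / 16) (n : ℕ) :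
    IsQL (fun v => (opr (Rd s U W) * TTv s U v) ^ n) :=
  ql_pow hQ _ (((hQ d).2.2.1 _ _ ((hQ d).1 (Rd s U W)) (ql_TTv hQ s U hU)).2.2) n

end

end Pool.Agent.W214.WA
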