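import Pool.Agent.W214.WA.Ops

set_option autoImplicit false

namespace Pool.Agent.W214.WA

open MeasureTheory Filter Pool.Agent.W792.LL Pool.Agent.W792.WA
open scoped Topology

noncomputable section

variable {d : ℕ}

lemma unif (P : ℕ → ℝ → Prop) (hmono : ∀ n δ δ', δ' ≤ δ → P n δ → P n δ')
    (h : ∀ n, ∃ δ, 0 < δ ∧ P n δ) (N : ℕ) : ∃ δ, 0 < δ ∧ ∀ n < N, P n δ := by
  induction N with
  | zero => exact ⟨1, one_pos, fun n hn => absurd hn (Nat.not_lt_zero n)⟩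
  | succ N ih =>
    obtain ⟨δ, hδ, h1⟩ := ih
    obtain ⟨δ', hδ', h2⟩ := h N
    refine ⟨min δ δ', lt_min hδ hδ', fun n hn => ?_⟩
    rcases (Nat.lt_succ_iff.mp hn).lt_or_eq with h3 | h3
    · exact hmono n δ _ (min_le_left _ _) (h1 n h3)
    · rw [h3]
      exact hmono N δ' _ (min_le_right _ _) h2

/-- the mean of `(c - s) (1 - m c)⁻¹ u` -/
lemma mean (hC : S_CSYM) (ν : Measure ℝ) [IsProbabilityMeasure ν]
    (s m : C(UnitAddTorus (Fin d), ℂ)) (hm : ‖m‖ ≤ 1 / 16) (u : l2 (Fin d → ℤ)) :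
    Integrable (fun v => (dc v - opr s) (rsv m v u)) (Pn ν (Fin d → ℤ)) ∧
    ∫ v, (dc v - opr s) (rsv m v u) ∂(Pn ν (Fin d → ℤ)) =
      opr (csym ν m - s * (1 + m * csym ν m)) u := by
  obtain ⟨h1, h2, h3⟩ := hC ν d m (by linarith)
  have hb : ∀ v, ‖rsv m v u‖ ≤ 16 / 15 * ‖u‖ := fun v =>
    ((rsv m v).le_opNorm u).trans
      (mul_le_mul_of_nonneg_right (rsv_facts m hm v).2.2.1 (norm_nonneg _))
  have hb' : ∀ v, ‖dc v (rsv m v u)‖ ≤ 16 / 15 * ‖u‖ := fun v => by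
    calc ‖dc v (rsv m v u)‖ ≤ ‖dc v‖ * ‖rsv m v u‖ := (dc v).le_opNorm _
      _ ≤ 1 * (16 / 15 * ‖u‖) := mul_le_mul (norm_dc v) (hb v) (norm_nonneg _) zero_le_one
      _ = _ := one_mul _
  have i1 : Integrable (fun v => rsv m v u) (Pn ν (Fin d → ℤ)) :=
    integrable_vec _ _ _ (fun x => (h2 u x).1) hb
  have i2 : Integrable (fun v => dc v (rsv m v u)) (Pn ν (Fin d → ℤ)) :=
    integrable_vec _ _ _ (fun x => (h2 u x).2.1) hb'
  have i3 : Integrable (fun v => opr s (rsv m v u)) (Pn ν (Fin d → ℤ)) :=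
    (opr s).integrable_comp i1
  have e1 : ∫ v, dc v (rsv m v u) ∂(Pn ν (Fin d → ℤ)) = opr (csym ν m) u :=
    int_eq _ _ i2 _ fun x => (h2 u x).2.2.1
  have e2 : ∫ v, rsv m v u ∂(Pn ν (Fin d → ℤ)) = u + opr (m * csym ν m) u :=
    int_eq _ _ i1 _ fun x => by
      rw [(h2 u x).2.2.2, lp.coeFn_add, Pi.add_apply]
  have e3 : ∫ v, opr s (rsv m v u) ∂(Pn ν (Fin d → ℤ)) = opr s (u + opr (m * csym ν m) u) := by
    rw [ContinuousLinearMap.integral_comp_comm _ i1, e2]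
  have e4 : (fun v => (dc v - opr s) (rsv m v u)) =
      fun v => dc v (rsv m v u) - opr s (rsv m v u) := by
    funext v
    rw [sub_apply]
  rw [e4]
  refine ⟨i2.sub i3, ?_⟩
  rw [integral_sub i2 i3, e1, e3, opr_sub, opr_mul s, opr_add, opr_one]
  rfl

lemma mean_zero (hC : S_CSYM) (hP : S_PSI) (ν : Measure ℝ) [IsProbabilityMeasure ν]
    (s U : C(UnitAddTorus (Fin d), ℂ)) (hU : ‖U‖ ≤ 1 / 16) (hpsi : psi ν U = s)
    (x y : Fin d → ℤ) : ∫ v, TTv s U v (dl y) x ∂(Pn ν (Fin d → ℤ)) = 0 := by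
  obtain ⟨h1, h2⟩ := mean hC ν s U hU (opr (1 - U * s) (dl y))
  have h3 : csym ν U - s * (1 + U * csym ν U) = 0 := by
    ext k
    obtain ⟨hP1, -, -⟩ := hP ν d (1 / 16) U U (by norm_num) (by norm_num) hU hU
    obtain ⟨a1, a2, -⟩ := hP1 k
    rw [hpsi] at a2
    simp only [ContinuousMap.sub_apply, ContinuousMap.mul_apply, ContinuousMap.add_apply,
      ContinuousMap.one_apply, ContinuousMap.zero_apply]
    rw [eq_div_iff a1] at a2
    linear_combination -a2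
  have h4 : opr (0 : C(UnitAddTorus (Fin d), ℂ)) = 0 := by
    have := opr_sub (1 : C(UnitAddTorus (Fin d), ℂ)) 1
    rwa [sub_self, sub_self] at this
  rw [h3, h4] at h2
  have h5 := int_apply _ _ h1 x
  rw [h2] at h5
  have h6 : ∀ v, TTv s U v (dl y) x = (dc v - opr s) (rsv U v (opr (1 - U * s) (dl y))) x := by
    intro v
    rfl
  simp only [h6]
  rw [← h5]
  rfl

/-- property furnished by the freeness theorem -/
def FP (ν : Measure ℝ) [IsProbabilityMeasure ν] (s U : C(UnitAddTorus (Fin d), ℂ)) (e : ℝ)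
    (n : ℕ) (δ : ℝ) : Prop :=
  ∀ m : C(UnitAddTorus (Fin d), ℂ), ‖m‖ ≤ 1 →
    (∀ x, ‖UnitAddTorus.mFourierCoeff m x‖ ≤ δ) → ∀ u : l2 (Fin d → ℤ), ‖u‖ ≤ 1 →
      (∀ w : l2 (Fin d → ℤ), ‖w‖ ≤ 1 →
        ‖∫ v, inner ℂ w (TTv s U v (((opr m * TTv s U v) ^ n) u)) ∂(Pn ν (Fin d → ℤ))‖ ≤ e) ∧
      (1 ≤ n → ∀ x, ∫ v, ‖(((opr m * TTv s U v) ^ n) u) x‖ ^ 2 ∂(Pn ν (Fin d → ℤ)) ≤ e)

lemma exists_FP (hC : S_CSYM) (hP : S_PSI) (hQ : S_QL) (hF : S_FREE) (ν : Measure ℝ)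
    [IsProbabilityMeasure ν] (s U : C(UnitAddTorus (Fin d), ℂ)) (hU : ‖U‖ ≤ 1 / 16)
    (hpsi : psi ν U = s) (e : ℝ) (he : 0 < e) (N : ℕ) :
    ∃ δ, 0 < δ ∧ ∀ n < N, FP ν s U e n δ := by
  refine unif (FP ν s U e) ?_ ?_ N
  · intro n δ δ' hδ h m hm hx
    exact h m hm fun x => (hx x).trans hδ
  · intro n
    exact hF ν d (TTv s U) (ql_TTv hQ s U hU) (mean_zero hC hP ν s U hU hpsi) n e he

lemma integrable_ql (hQ : S_QL) (ν : Measure ℝ) [IsProbabilityMeasure ν]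
    (Q : ((Fin d → ℤ) → ℝ) → (l2 (Fin d → ℤ) →L[ℂ] l2 (Fin d → ℤ))) (h : IsQL Q)
    (u : l2 (Fin d → ℤ)) : Integrable (fun v => Q v u) (Pn ν (Fin d → ℤ)) := by
  obtain ⟨⟨C, hC⟩, hm⟩ := (hQ d).2.2.2.2 Q h
  refine integrable_vec _ _ (C * ‖u‖) (fun x => hm u x) fun v => ?_
  exact ((Q v).le_opNorm u).trans (mul_le_mul_of_nonneg_right (hC v) (norm_nonneg _))

lemma norm_pow_le (X : l2 (Fin d → ℤ) →L[ℂ] l2 (Fin d → ℤ)) (hX : ‖X‖ ≤ 1 / 3) (n : ℕ) :
    ‖X ^ n‖ ≤ (1 / 3) ^ n := by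
  induction n with
  | zero =>
    rw [pow_zero, pow_zero]
    exact norm_one_op
  | succ n ih =>
    rw [pow_succ, pow_succ]
    exact (norm_mul_le _ _).trans (mul_le_mul ih hX (norm_nonneg _) (by positivity))

theorem partA (hS : S_SYMB) (hC : S_CSYM) (hP : S_PSI) (hQ : S_QL) (hF : S_FREE)
    (ν : Measure ℝ) [IsProbabilityMeasure ν] (s U : C(UnitAddTorus (Fin d), ℂ)) (hs : ‖s‖ ≤ 1)
    (hU : ‖U‖ ≤ 1 / 16) (hpsi : psi ν U = s) (e : ℝ) (he : 0 < e) : ∃ δ : ℝ, 0 < δ ∧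
    ∀ W : C(UnitAddTorus (Fin d), ℂ), ‖W‖ ≤ 1 / 16 →
    (∀ x, ‖UnitAddTorus.mFourierCoeff (⇑(Rd s U W)) x‖ ≤ δ) →
      ∀ k, ‖csym ν W k - s k / (1 - W k * s k)‖ ≤ e := by
  obtain ⟨N, hN⟩ : ∃ N : ℕ, ((1 : ℝ) / 3) ^ N < e / 16 :=
    exists_pow_lt_of_lt_one (by positivity) (by norm_num)
  obtain ⟨δ, hδ, hFP⟩ := exists_FP hC hP hQ hF ν s U hU hpsi (e / (4 * (N + 1)))
    (by positivity) N
  refine ⟨δ, hδ, fun W hW hx k => ?_⟩
  obtain ⟨q, hq⟩ : ∃ q : C(UnitAddTorus (Fin d), ℂ),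
      q = (csym ν W - s * (1 + W * csym ν W)) * (1 - W * s) := ⟨_, rfl⟩
  -- the bound on unit vectors
  have hunit : ∀ u : l2 (Fin d → ℤ), ‖u‖ ≤ 1 → ‖opr q u‖ ≤ e / 2 := by
    intro u hu
    refine norm_le_of_inner _ _ (by positivity) fun w hw => ?_
    obtain ⟨h1, h2⟩ := mean hC ν s W hW (opr (1 - W * s) u)
    have e1 : opr q u = ∫ v, (dc v - opr s) (rsv W v (opr (1 - W * s) u))
        ∂(Pn ν (Fin d → ℤ)) := by
      rw [h2, hq, opr_mul]
      rfl
    have e2 : ∀ v, (dc v - opr s) (rsv W v (opr (1 - W * s) u)) =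
        (TTv s U v * ZZ s U W v) u := by
      intro v
      rw [← tt_eq s U W hs hU hW v]
      rfl
    rw [e1, ← integral_inner h1]
    simp only [e2] at h1 ⊢
    obtain ⟨X, hXd⟩ : ∃ X : ((Fin d → ℤ) → ℝ) → (l2 (Fin d → ℤ) →L[ℂ] l2 (Fin d → ℤ)),
        X = fun v => opr (Rd s U W) * TTv s U v := ⟨_, rfl⟩
    have hXn : ∀ v, ‖X v‖ ≤ 1 / 3 := by
      intro v
      rw [hXd]
      exact norm_XX s U W hs hU hW v
    have hfi : ∀ n, Integrable (fun v => inner ℂ w (TTv s U v ((X v ^ n) u)))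
        (Pn ν (Fin d → ℤ)) := by
      intro n
      have := (hQ d).2.2.1 _ _ (ql_TTv hQ s U hU) (ql_XX hQ s U W hU n)
      have h3 := integrable_ql hQ ν _ this.2.2 u
      rw [hXd]
      exact Integrable.const_inner w h3
    have hgi : Integrable (fun v => inner ℂ w ((TTv s U v * ZZ s U W v) u))
        (Pn ν (Fin d → ℤ)) := Integrable.const_inner w h1
    have hexp : ∀ v, inner ℂ w ((TTv s U v * ZZ s U W v) u) =
        ∑ n ∈ Finset.range N, inner ℂ w (TTv s U v ((X v ^ n) u)) +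
          inner ℂ w (TTv s U v ((X v ^ N) (ZZ s U W v u))) := by
      intro v
      have h3 := geo (opr (Rd s U W) * TTv s U v) (ZZ s U W v)
        (ZZ_facts s U W hs hU hW v).1 N
      have h4 : (TTv s U v * ZZ s U W v) u = ∑ n ∈ Finset.range N, TTv s U v ((X v ^ n) u) +
          TTv s U v ((X v ^ N) (ZZ s U W v u)) := by
        rw [hXd]
        calc (TTv s U v * ZZ s U W v) u = TTv s U v (ZZ s U W v u) := rfl
          _ = TTv s U v ((∑ n ∈ Finset.range N, (opr (Rd s U W) * TTv s U v) ^ n +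
                (opr (Rd s U W) * TTv s U v) ^ N * ZZ s U W v) u) := by rw [← h3]
          _ = _ := by
              rw [add_apply, sum_apply, map_add, map_sum]
              rfl
      rw [h4, inner_add_right, inner_sum]
    have hr : Integrable (fun v => inner ℂ w (TTv s U v ((X v ^ N) (ZZ s U W v u))))
        (Pn ν (Fin d → ℤ)) := by
      have h5 : (fun v => inner ℂ w (TTv s U v ((X v ^ N) (ZZ s U W v u)))) =
          fun v => inner ℂ w ((TTv s U v * ZZ s U W v) u) -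
            ∑ n ∈ Finset.range N, inner ℂ w (TTv s U v ((X v ^ n) u)) := by
        funext v
        rw [hexp v]
        ring
      rw [h5]
      exact hgi.sub (integrable_finsetSum _ fun n _ => hfi n)
    simp only [hexp]
    rw [integral_add (integrable_finsetSum _ fun n _ => hfi n) hr,
      integral_finsetSum _ fun n _ => hfi n]
    have b1 : ‖∑ n ∈ Finset.range N, ∫ v, inner ℂ w (TTv s U v ((X v ^ n) u))
        ∂(Pn ν (Fin d → ℤ))‖ ≤ e / 4 := by
      refine (norm_sum_le _ _).trans ?_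
      have h6 : ∀ n ∈ Finset.range N, ‖∫ v, inner ℂ w (TTv s U v ((X v ^ n) u))
          ∂(Pn ν (Fin d → ℤ))‖ ≤ e / (4 * (N + 1)) := by
        intro n hn
        have h7 := (hFP n (Finset.mem_range.mp hn) (Rd s U W)
          ((norm_Rd s U W hs hU hW).trans (by norm_num)) hx u hu).1 w hw
        rw [hXd]
        exact h7
      refine (Finset.sum_le_sum h6).trans ?_
      rw [Finset.sum_const, Finset.card_range, nsmul_eq_mul]
      have hN0 : (0 : ℝ) ≤ N := Nat.cast_nonneg N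
      rw [mul_div_assoc', div_le_div_iff₀ (by positivity) (by norm_num)]
      nlinarith
    have b2 : ‖∫ v, inner ℂ w (TTv s U v ((X v ^ N) (ZZ s U W v u))) ∂(Pn ν (Fin d → ℤ))‖ ≤
        e / 4 := by
      have h8 : ∀ v, ‖inner ℂ w (TTv s U v ((X v ^ N) (ZZ s U W v u)))‖ ≤ e / 4 := by
        intro v
        have c1 : ‖ZZ s U W v u‖ ≤ 3 / 2 := by
          calc ‖ZZ s U W v u‖ ≤ ‖ZZ s U W v‖ * ‖u‖ := (ZZ s U W v).le_opNorm u
            _ ≤ 3 / 2 * 1 := mul_le_mul (ZZ_facts s U W hs hU hW v).2.2 hu (norm_nonneg _)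
                (by norm_num)
            _ = 3 / 2 := by norm_num
        have c2 : ‖(X v ^ N) (ZZ s U W v u)‖ ≤ (1 / 3) ^ N * (3 / 2) :=
          ((X v ^ N).le_opNorm _).trans (mul_le_mul (norm_pow_le _ (hXn v) N) c1
            (norm_nonneg _) (by positivity))
        have c3 : ‖TTv s U v ((X v ^ N) (ZZ s U W v u))‖ ≤ 34 / 15 * ((1 / 3) ^ N * (3 / 2)) :=
          ((TTv s U v).le_opNorm _).trans (mul_le_mul (norm_TTv s U hs hU v) c2
            (norm_nonneg _) (by norm_num))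
        calc ‖inner ℂ w (TTv s U v ((X v ^ N) (ZZ s U W v u)))‖ ≤
            ‖w‖ * ‖TTv s U v ((X v ^ N) (ZZ s U W v u))‖ := norm_inner_le_norm _ _
          _ ≤ 1 * (34 / 15 * ((1 / 3) ^ N * (3 / 2))) :=
              mul_le_mul hw c3 (norm_nonneg _) zero_le_one
          _ ≤ e / 4 := by linarith
      have h9 := norm_integral_le_of_norm_le_const (μ := Pn ν (Fin d → ℤ))
        (Eventually.of_forall h8)
      simpa using h9
    calc _ ≤ _ := norm_add_le _ _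
      _ ≤ e / 4 + e / 4 := add_le_add b1 b2
      _ = e / 2 := by ring
  have hop : ‖opr q‖ ≤ e / 2 := by
    refine ContinuousLinearMap.opNorm_le_bound _ (by positivity) fun u => ?_
    by_cases hu : u = 0
    · rw [hu]; simp
    · have hu0 : 0 < ‖u‖ := norm_pos_iff.mpr hu
      have h1 := hunit (((‖u‖⁻¹ : ℝ) : ℂ) • u) (by
        rw [norm_smul, Complex.norm_real, Real.norm_eq_abs, abs_of_pos (by positivity)]
        rw [inv_mul_cancel₀ hu0.ne'])
      rw [map_smul, norm_smul, Complex.norm_real, Real.norm_eq_abs,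
        abs_of_pos (by positivity)] at h1
      rwa [inv_mul_le_iff₀ hu0, mul_comm] at h1
  rw [(hS d).2.1 q] at hop
  have hqk : ‖q k‖ ≤ e / 2 := (q.norm_coe_le_norm k).trans hop
  obtain ⟨hk0, hk1⟩ := DD_apply s W hs hW k
  have hqe : csym ν W k - s k / (1 - W k * s k) = q k * (DD s W k * DD s W k) := by
    rw [div_eq_mul_one_div (s k), ← hk1, hq]
    simp only [ContinuousMap.sub_apply, ContinuousMap.mul_apply, ContinuousMap.add_apply,
      ContinuousMap.one_apply]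
    have hE : (1 - W k * s k) * DD s W k = 1 := by rw [hk1, mul_one_div_cancel hk0]
    linear_combination (-(csym ν W k) - (csym ν W k - s k - s k * W k * csym ν W k) *
      DD s W k) * hE
  rw [hqe, norm_mul, norm_mul]
  have hD : ‖DD s W k‖ ≤ 16 / 15 := ((DD s W).norm_coe_le_norm k).trans
    (DD_facts s W hs hW).2.2
  have hD2 : ‖DD s W k‖ * ‖DD s W k‖ ≤ 2 := by nlinarith [norm_nonneg (DD s W k)]
  calc ‖q k‖ * (‖DD s W k‖ * ‖DD s W k‖) ≤ e / 2 * 2 :=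
        mul_le_mul hqk hD2 (by positivity) (by positivity)
    _ = e := by ring

end

end Pool.Agent.W214.WA
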