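import Pool.Agent.W214.WA.PartA

set_option autoImplicit false

namespace Pool.Agent.W214.WA

open MeasureTheory Filter Pool.Agent.W792.LL Pool.Agent.W792.WA
open scoped Topology

noncomputable section

variable {d : ℕ}

/-- a fixed symbol times a symbol with small Fourier coefficients -/
lemma psi_bound (hS : S_SYMB) (s : C(UnitAddTorus (Fin d), ℂ)) (e : ℝ) (he : 0 < e) :
    ∃ δ : ℝ, 0 < δ ∧ ∀ m : C(UnitAddTorus (Fin d), ℂ), ‖m‖ ≤ 1 →
    (∀ x, ‖UnitAddTorus.mFourierCoeff m x‖ ≤ δ) → ∀ x, ‖(opr (s * m) (dl 0)) x‖ ≤ e := by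
  obtain ⟨η, hη⟩ : ∃ η : l2 (Fin d → ℤ), η = opr s (dl 0) := ⟨_, rfl⟩
  obtain ⟨F, hF⟩ := (Metric.tendsto_nhds.mp (hasSum_dl η) (e / 2) (by positivity)).exists
  rw [dist_eq_norm] at hF
  refine ⟨e / (2 * (∑ y ∈ F, ‖η y‖ + 1)), by positivity, fun m hm hx x => ?_⟩
  have h1 : opr (s * m) (dl 0) = opr m η := by
    rw [mul_comm, opr_mul, hη]
    rfl
  have h2 : opr m η = opr m (∑ y ∈ F, η y • (dl y : l2 (Fin d → ℤ))) -
      opr m (∑ y ∈ F, η y • (dl y : l2 (Fin d → ℤ)) - η) := by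
    rw [map_sub]; abel
  have h3 : (opr m (∑ y ∈ F, η y • (dl y : l2 (Fin d → ℤ)))) x =
      ∑ y ∈ F, η y * UnitAddTorus.mFourierCoeff m (x - y) := by
    rw [map_sum, lp.coeFn_sum, Finset.sum_apply]
    refine Finset.sum_congr rfl fun y _ => ?_
    rw [map_smul, lp.coeFn_smul, Pi.smul_apply, smul_eq_mul, (hS d).2.2.2.2 m x y]
  rw [h1, h2, lp.coeFn_sub, Pi.sub_apply, h3]
  have b1 : ‖∑ y ∈ F, η y * UnitAddTorus.mFourierCoeff m (x - y)‖ ≤ e / 2 := by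
    refine (norm_sum_le _ _).trans ?_
    have h4 : ∀ y ∈ F, ‖η y * UnitAddTorus.mFourierCoeff m (x - y)‖ ≤
        ‖η y‖ * (e / (2 * (∑ y ∈ F, ‖η y‖ + 1))) := by
      intro y _
      rw [norm_mul]
      exact mul_le_mul_of_nonneg_left (hx _) (norm_nonneg _)
    refine (Finset.sum_le_sum h4).trans ?_
    rw [← Finset.sum_mul]
    obtain ⟨A, hA⟩ : ∃ A, A = ∑ y ∈ F, ‖η y‖ := ⟨_, rfl⟩
    have hA0 : 0 ≤ A := by rw [hA]; positivity
    rw [← hA, mul_div_assoc', div_le_div_iff₀ (by positivity) (by norm_num)]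
    nlinarith
  have b2 : ‖(opr m (∑ y ∈ F, η y • (dl y : l2 (Fin d → ℤ)) - η)) x‖ ≤ e / 2 := by
    calc ‖(opr m (∑ y ∈ F, η y • (dl y : l2 (Fin d → ℤ)) - η)) x‖ ≤
        ‖opr m (∑ y ∈ F, η y • (dl y : l2 (Fin d → ℤ)) - η)‖ := norm_apply_le _ _
      _ ≤ ‖opr m‖ * ‖∑ y ∈ F, η y • (dl y : l2 (Fin d → ℤ)) - η‖ := (opr m).le_opNorm _
      _ ≤ 1 * (e / 2) := mul_le_mul ((norm_opr m).trans hm) hF.le (norm_nonneg _) zero_le_one
      _ = e / 2 := one_mul _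
  calc _ ≤ _ := norm_sub_le _ _
    _ ≤ e / 2 + e / 2 := add_le_add b1 b2
    _ = e := by ring

/-- the difference of the two resolvents -/
lemma diff_eq (s U W : C(UnitAddTorus (Fin d), ℂ)) (hs : ‖s‖ ≤ 1) (hU : ‖U‖ ≤ 1 / 16)
    (hW : ‖W‖ ≤ 1 / 16) (v : (Fin d → ℤ) → ℝ) :
    Zf W (fun x => cay (v x)) - Zf U (fun x => cay (v x)) =
      (LLv s U v ((opr (Rd s U W) * TTv s U v) (ZZ s U W v (opr (DD s W) (dl 0))) +
        opr (s * Rd s U W) (dl 0))) 0 := by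
  have e1 : Zf W (fun x => cay (v x)) = (rsv W v (dl 0)) 0 := rfl
  have e2 : Zf U (fun x => cay (v x)) = (rsv U v (dl 0)) 0 := rfl
  rw [e1, e2, ← Pi.sub_apply, ← lp.coeFn_sub]
  rw [rsv_eq s U W hs hU hW v, rsv_eq' s U hs hU v, ← DD_sub s U W hs hU hW, opr_sub]
  have h1 := (ZZ_facts s U W hs hU hW v).1
  have h2 : ZZ s U W v = 1 + (opr (Rd s U W) * TTv s U v) * ZZ s U W v := by
    rw [sub_mul, one_mul, sub_eq_iff_eq_add] at h1
    exact h1
  have h3 : ZZ s U W v (opr (DD s W) (dl 0)) = opr (DD s W) (dl 0) +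
      (opr (Rd s U W) * TTv s U v) (ZZ s U W v (opr (DD s W) (dl 0))) := by
    calc ZZ s U W v (opr (DD s W) (dl 0)) =
        (1 + (opr (Rd s U W) * TTv s U v) * ZZ s U W v) (opr (DD s W) (dl 0)) := by rw [← h2]
      _ = _ := rfl
  have h4 : (LLv s U v * ZZ s U W v * opr (DD s W)) (dl 0) =
      LLv s U v (ZZ s U W v (opr (DD s W) (dl 0))) := rfl
  have h5 : (LLv s U v * opr (DD s U)) (dl 0) = LLv s U v (opr (DD s U) (dl 0)) := rfl
  have h6 : (opr (DD s W) - opr (DD s U)) (dl 0) =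
      opr (DD s W) (dl 0) - opr (DD s U) (dl 0) := rfl
  have h7 : ZZ s U W v (opr (DD s W) (dl 0)) - opr (DD s U) (dl 0) =
      (opr (Rd s U W) * TTv s U v) (ZZ s U W v (opr (DD s W) (dl 0))) +
        (opr (DD s W) (dl 0) - opr (DD s U) (dl 0)) := by
    nth_rewrite 1 [h3]
    abel
  rw [h4, h5, h6, ← map_sub, h7]

theorem partB (hS : S_SYMB) (hC : S_CSYM) (hP : S_PSI) (hQ : S_QL) (hF : S_FREE)
    (ν : Measure ℝ) [IsProbabilityMeasure ν] (s U : C(UnitAddTorus (Fin d), ℂ)) (hs : ‖s‖ ≤ 1)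
    (hU : ‖U‖ ≤ 1 / 16) (hpsi : psi ν U = s) (e : ℝ) (he : 0 < e) : ∃ δ : ℝ, 0 < δ ∧
    ∀ W : C(UnitAddTorus (Fin d), ℂ), ‖W‖ ≤ 1 / 16 →
    (∀ x, ‖UnitAddTorus.mFourierCoeff (⇑(Rd s U W)) x‖ ≤ δ) →
      ∫ v, ‖Zf W (fun x => cay (v x)) - Zf U (fun x => cay (v x))‖ ∂(Pn ν (Fin d → ℤ)) ≤ e := by
  obtain ⟨R, C, L', hL, hLL⟩ := ql_LLv hQ s U hU (e / 4) (by positivity)
  have hC0 : 0 ≤ C := (norm_nonneg _).trans (hL.bound (fun _ => 0))
  obtain ⟨B, hB⟩ : ∃ B : Finset (Fin d → ℤ), B = bx R 0 := ⟨_, rfl⟩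
  obtain ⟨K, hK⟩ : ∃ K : ℝ, K = C * B.card + 1 := ⟨_, rfl⟩
  have hCB : 0 ≤ C * (B.card : ℝ) := by positivity
  have hK0 : 0 < K := by rw [hK]; linarith
  obtain ⟨N, hN⟩ : ∃ N : ℕ, ((1 : ℝ) / 3) ^ N < e / (8 * K) :=
    exists_pow_lt_of_lt_one (by positivity) (by norm_num)
  obtain ⟨t, ht⟩ : ∃ t : ℝ, t = e / (12 * K * (N + 1)) := ⟨_, rfl⟩
  have ht0 : 0 < t := by rw [ht]; positivity
  obtain ⟨δ₁, hδ₁, hFP⟩ := exists_FP hC hP hQ hF ν s U hU hpsi (t ^ 2) (by positivity) (N + 1)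
  obtain ⟨δ₂, hδ₂, hpb⟩ := psi_bound hS s (e / (8 * K)) (by positivity)
  refine ⟨min δ₁ δ₂, lt_min hδ₁ hδ₂, fun W hW hx => ?_⟩
  have hR15 := norm_Rd s U W hs hU hW
  have hR1 : ‖Rd s U W‖ ≤ 1 := hR15.trans (by norm_num)
  obtain ⟨X, hXd⟩ : ∃ X : ((Fin d → ℤ) → ℝ) → (l2 (Fin d → ℤ) →L[ℂ] l2 (Fin d → ℤ)),
      X = fun v => opr (Rd s U W) * TTv s U v := ⟨_, rfl⟩
  have hXn : ∀ v, ‖X v‖ ≤ 1 / 3 := by
    intro v
    rw [hXd]
    exact norm_XX s U W hs hU hW v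
  obtain ⟨χ, hχ⟩ : ∃ χ : l2 (Fin d → ℤ), χ = opr (DD s W) (dl 0) := ⟨_, rfl⟩
  obtain ⟨ψ, hψ⟩ : ∃ ψ : l2 (Fin d → ℤ), ψ = opr (s * Rd s U W) (dl 0) := ⟨_, rfl⟩
  have hχn : ‖χ‖ ≤ 16 / 15 := by
    rw [hχ]
    calc ‖opr (DD s W) (dl 0)‖ ≤ ‖opr (DD s W)‖ * ‖(dl 0 : l2 (Fin d → ℤ))‖ :=
          (opr (DD s W)).le_opNorm _
      _ ≤ 16 / 15 := by
          rw [norm_dl, mul_one]
          exact (norm_opr _).trans (DD_facts s W hs hW).2.2
  have hψn : ‖ψ‖ ≤ 2 / 15 := by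
    rw [hψ]
    calc ‖opr (s * Rd s U W) (dl 0)‖ ≤ ‖opr (s * Rd s U W)‖ * ‖(dl 0 : l2 (Fin d → ℤ))‖ :=
          (opr (s * Rd s U W)).le_opNorm _
      _ ≤ ‖s‖ * ‖Rd s U W‖ := by
          rw [norm_dl, mul_one]
          exact (norm_opr _).trans (norm_mul_le _ _)
      _ ≤ 1 * (2 / 15) := mul_le_mul hs hR15 (norm_nonneg _) zero_le_one
      _ = 2 / 15 := one_mul _
  have hψx : ∀ x, ‖ψ x‖ ≤ e / (8 * K) := by
    intro x
    rw [hψ]
    exact hpb _ hR1 (fun y => (hx y).trans (min_le_right _ _)) x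
  -- pointwise bound
  have hpt : ∀ v, ‖Zf W (fun x => cay (v x)) - Zf U (fun x => cay (v x))‖ ≤
      (e / 4 + C * (B.card * (N * t + e / (8 * K) + e / (8 * K)))) +
        C / t * ∑ x ∈ B, ∑ n ∈ Finset.range N, ‖((X v ^ (n + 1)) χ) x‖ ^ 2 := by
    intro v
    obtain ⟨z, hz⟩ : ∃ z : l2 (Fin d → ℤ), z = ZZ s U W v χ := ⟨_, rfl⟩
    have hzn : ‖z‖ ≤ 8 / 5 := by
      rw [hz]
      calc ‖ZZ s U W v χ‖ ≤ ‖ZZ s U W v‖ * ‖χ‖ := (ZZ s U W v).le_opNorm _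
        _ ≤ 3 / 2 * (16 / 15) := mul_le_mul (ZZ_facts s U W hs hU hW v).2.2 hχn
            (norm_nonneg _) (by norm_num)
        _ = 8 / 5 := by norm_num
    have hd : Zf W (fun x => cay (v x)) - Zf U (fun x => cay (v x)) =
        (LLv s U v (X v z + ψ)) 0 := by
      rw [diff_eq s U W hs hU hW v, hψ, hz, hχ, hXd]
    have hyn : ‖X v z + ψ‖ ≤ 1 := by
      have h1 : ‖X v z‖ ≤ 1 / 3 * (8 / 5) := ((X v).le_opNorm z).trans
        (mul_le_mul (hXn v) hzn (norm_nonneg _) (by norm_num))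
      have h2 := norm_add_le (X v z) ψ
      linarith
    have hsplit : X v z = ∑ n ∈ Finset.range N, (X v ^ (n + 1)) χ + (X v ^ (N + 1)) z := by
      have h1 := (ZZ_facts s U W hs hU hW v).1
      have h2 : (1 - X v) * ZZ s U W v = 1 := by
        rw [hXd]; exact h1
      have h3 := geo (X v) (ZZ s U W v) h2 (N + 1)
      have h4 : ZZ s U W v = 1 + X v * ZZ s U W v := by
        rw [sub_mul, one_mul, sub_eq_iff_eq_add] at h2
        exact h2
      rw [Finset.sum_range_succ', pow_zero] at h3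
      have h5 : X v * ZZ s U W v = ∑ n ∈ Finset.range N, X v ^ (n + 1) +
          X v ^ (N + 1) * ZZ s U W v := by
        have h6 : (1 : l2 (Fin d → ℤ) →L[ℂ] l2 (Fin d → ℤ)) + X v * ZZ s U W v =
            1 + (∑ n ∈ Finset.range N, X v ^ (n + 1) + X v ^ (N + 1) * ZZ s U W v) := by
          rw [← h4]
          nth_rewrite 1 [h3]
          abel
        exact add_left_cancel h6
      have h7 := congrArg (fun T : l2 (Fin d → ℤ) →L[ℂ] l2 (Fin d → ℤ) => T χ) h5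
      simp only [add_apply, sum_apply] at h7
      rw [hz]
      exact h7
    have hxb : ∀ x, ‖(X v z + ψ) x‖ ≤
        ∑ n ∈ Finset.range N, ‖((X v ^ (n + 1)) χ) x‖ + e / (8 * K) + e / (8 * K) := by
      intro x
      rw [hsplit, lp.coeFn_add, Pi.add_apply, lp.coeFn_add, Pi.add_apply, lp.coeFn_sum,
        Finset.sum_apply]
      have h1 : ‖((X v ^ (N + 1)) z) x‖ ≤ e / (8 * K) := by
        calc ‖((X v ^ (N + 1)) z) x‖ ≤ ‖(X v ^ (N + 1)) z‖ := norm_apply_le _ _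
          _ ≤ ‖X v ^ (N + 1)‖ * ‖z‖ := (X v ^ (N + 1)).le_opNorm z
          _ ≤ (1 / 3) ^ (N + 1) * (8 / 5) := mul_le_mul (norm_pow_le _ (hXn v) _) hzn
              (norm_nonneg _) (by positivity)
          _ ≤ (1 / 3) ^ N := by
              rw [pow_succ]
              have : (0 : ℝ) ≤ (1 / 3) ^ N := by positivity
              linarith
          _ ≤ e / (8 * K) := hN.le
      refine (norm_add_le _ _).trans (add_le_add ?_ (hψx x))
      exact (norm_add_le _ _).trans (add_le_add (norm_sum_le _ _) h1)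
    have hloc := local_bound (L' v) C R (hL.bound v)
      (fun y hy => hL.range v 0 y hy) (X v z + ψ)
    have hsq : ∀ a : ℝ, a ≤ t + a ^ 2 / t := by
      intro a
      rw [← sub_nonneg]
      have : t + a ^ 2 / t - a = ((t - a / 2) ^ 2 + 3 / 4 * a ^ 2) / t := by
        field_simp
        ring
      rw [this]
      positivity
    have hsum : ∑ x ∈ B, ‖(X v z + ψ) x‖ ≤ B.card * (N * t + e / (8 * K) + e / (8 * K)) +
        (∑ x ∈ B, ∑ n ∈ Finset.range N, ‖((X v ^ (n + 1)) χ) x‖ ^ 2) / t := by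
      have h1 : ∀ x ∈ B, ‖(X v z + ψ) x‖ ≤ (N * t + e / (8 * K) + e / (8 * K)) +
          (∑ n ∈ Finset.range N, ‖((X v ^ (n + 1)) χ) x‖ ^ 2) / t := by
        intro x _
        refine (hxb x).trans ?_
        have h2 : ∑ n ∈ Finset.range N, ‖((X v ^ (n + 1)) χ) x‖ ≤
            ∑ n ∈ Finset.range N, (t + ‖((X v ^ (n + 1)) χ) x‖ ^ 2 / t) :=
          Finset.sum_le_sum fun n _ => hsq _
        rw [Finset.sum_add_distrib, Finset.sum_const, Finset.card_range, nsmul_eq_mul,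
          ← Finset.sum_div] at h2
        linarith
      refine (Finset.sum_le_sum h1).trans (le_of_eq ?_)
      rw [Finset.sum_add_distrib, Finset.sum_const, nsmul_eq_mul, ← Finset.sum_div]
    rw [hd]
    have hfin : ‖(LLv s U v (X v z + ψ)) 0‖ ≤ e / 4 + C * ∑ x ∈ B, ‖(X v z + ψ) x‖ := by
      have h1 : LLv s U v (X v z + ψ) = (LLv s U v - L' v) (X v z + ψ) + L' v (X v z + ψ) := by
        rw [sub_apply]; abel
      rw [h1, lp.coeFn_add, Pi.add_apply]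
      refine (norm_add_le _ _).trans (add_le_add ?_ ?_)
      · calc ‖((LLv s U v - L' v) (X v z + ψ)) 0‖ ≤ ‖(LLv s U v - L' v) (X v z + ψ)‖ :=
              norm_apply_le _ _
          _ ≤ ‖LLv s U v - L' v‖ * ‖X v z + ψ‖ := ContinuousLinearMap.le_opNorm _ _
          _ ≤ e / 4 * 1 := mul_le_mul (hLL v) hyn (norm_nonneg _) (by positivity)
          _ = e / 4 := mul_one _
      · rw [hB]; exact hloc
    refine hfin.trans ?_
    have h3 := mul_le_mul_of_nonneg_left hsum hC0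
    calc e / 4 + C * ∑ x ∈ B, ‖(X v z + ψ) x‖ ≤ e / 4 +
        C * (B.card * (N * t + e / (8 * K) + e / (8 * K)) +
        (∑ x ∈ B, ∑ n ∈ Finset.range N, ‖((X v ^ (n + 1)) χ) x‖ ^ 2) / t) := by linarith
      _ = _ := by ring
  -- integrability of the squares
  have hint : ∀ (n : ℕ) (x : Fin d → ℤ), Integrable (fun v => ‖((X v ^ (n + 1)) χ) x‖ ^ 2)
      (Pn ν (Fin d → ℤ)) := by
    intro n x
    have h1 : IsQL (fun v => X v ^ (n + 1)) := by
      rw [hXd]; exact ql_XX hQ s U W hU (n + 1)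
    have h2 := ((hQ d).2.2.2.2 _ h1).2 χ x
    refine Integrable.of_bound (h2.norm.pow_const 2).aestronglyMeasurable ((16 / 15) ^ 2)
      (Eventually.of_forall fun v => ?_)
    rw [norm_pow, norm_norm]
    refine pow_le_pow_left₀ (norm_nonneg _) ?_ 2
    calc ‖((X v ^ (n + 1)) χ) x‖ ≤ ‖(X v ^ (n + 1)) χ‖ := norm_apply_le _ _
      _ ≤ ‖X v ^ (n + 1)‖ * ‖χ‖ := (X v ^ (n + 1)).le_opNorm χ
      _ ≤ 1 * (16 / 15) := mul_le_mul ((norm_pow_le _ (hXn v) _).trans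
          (pow_le_one₀ (by norm_num) (by norm_num))) hχn (norm_nonneg _) zero_le_one
      _ = 16 / 15 := one_mul _
  have hval : ∀ n ∈ Finset.range N, ∀ x : Fin d → ℤ, ∫ v, ‖((X v ^ (n + 1)) χ) x‖ ^ 2
      ∂(Pn ν (Fin d → ℤ)) ≤ 2 * t ^ 2 := by
    intro n hn x
    have hn' := Finset.mem_range.mp hn
    have h1 := (hFP (n + 1) (by omega) (Rd s U W) hR1
      (fun y => (hx y).trans (min_le_left _ _)) (((15 / 16 : ℝ) : ℂ) • χ) (by
        rw [norm_smul, Complex.norm_real, Real.norm_eq_abs, abs_of_pos (by norm_num)]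
        linarith)).2 (by omega) x
    have h2 : ∀ v, ‖(((opr (Rd s U W) * TTv s U v) ^ (n + 1)) (((15 / 16 : ℝ) : ℂ) • χ)) x‖ ^ 2 =
        (15 / 16) ^ 2 * ‖((X v ^ (n + 1)) χ) x‖ ^ 2 := by
      intro v
      rw [map_smul, lp.coeFn_smul, Pi.smul_apply, norm_smul, Complex.norm_real,
        Real.norm_eq_abs, abs_of_pos (by norm_num), mul_pow, hXd]
    simp only [h2] at h1
    rw [integral_const_mul] at h1
    have h3 : 0 ≤ ∫ v, ‖((X v ^ (n + 1)) χ) x‖ ^ 2 ∂(Pn ν (Fin d → ℤ)) :=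
      integral_nonneg fun v => by positivity
    nlinarith
  have hGi : Integrable (fun v => (e / 4 + C * (B.card * (N * t + e / (8 * K) + e / (8 * K)))) +
      C / t * ∑ x ∈ B, ∑ n ∈ Finset.range N, ‖((X v ^ (n + 1)) χ) x‖ ^ 2)
      (Pn ν (Fin d → ℤ)) :=
    (integrable_const _).add ((integrable_finsetSum _ fun x _ =>
      integrable_finsetSum _ fun n _ => hint n x).const_mul _)
  refine (integral_mono_of_nonneg (Eventually.of_forall fun v => norm_nonneg _) hGi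
    (Eventually.of_forall hpt)).trans ?_
  rw [integral_add (integrable_const _) ((integrable_finsetSum _ fun x _ =>
      integrable_finsetSum _ fun n _ => hint n x).const_mul _), integral_const_mul,
    integral_finsetSum _ fun x _ => integrable_finsetSum _ fun n _ => hint n x]
  have h1 : ∑ x ∈ B, ∫ v, ∑ n ∈ Finset.range N, ‖((X v ^ (n + 1)) χ) x‖ ^ 2
      ∂(Pn ν (Fin d → ℤ)) ≤ B.card * (N * (2 * t ^ 2)) := by
    have h2 : ∀ x ∈ B, ∫ v, ∑ n ∈ Finset.range N, ‖((X v ^ (n + 1)) χ) x‖ ^ 2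
        ∂(Pn ν (Fin d → ℤ)) ≤ N * (2 * t ^ 2) := by
      intro x _
      rw [integral_finsetSum _ fun n _ => hint n x]
      refine (Finset.sum_le_sum fun n hn => hval n hn x).trans (le_of_eq ?_)
      rw [Finset.sum_const, Finset.card_range, nsmul_eq_mul]
    refine (Finset.sum_le_sum h2).trans (le_of_eq ?_)
    rw [Finset.sum_const, nsmul_eq_mul]
  have h3 : C / t * ∑ x ∈ B, ∫ v, ∑ n ∈ Finset.range N, ‖((X v ^ (n + 1)) χ) x‖ ^ 2
      ∂(Pn ν (Fin d → ℤ)) ≤ C / t * (B.card * (N * (2 * t ^ 2))) :=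
    mul_le_mul_of_nonneg_left h1 (by positivity)
  have h4 : C / t * (B.card * (N * (2 * t ^ 2))) = C * B.card * (2 * (N * t)) := by
    field_simp
  have h5 : (N : ℝ) * t ≤ e / (12 * K) := by
    rw [ht, mul_div_assoc', div_le_div_iff₀ (by positivity) (by positivity)]
    have hN0 : (0 : ℝ) ≤ N := Nat.cast_nonneg N
    have hKe : 0 < 12 * K * e := by positivity
    nlinarith
  have h6 : C * (B.card : ℝ) ≤ K := by rw [hK]; linarith
  have hNt : 0 ≤ (N : ℝ) * t := by positivity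
  simp only [integral_const, probReal_univ, smul_eq_mul, one_mul]
  have h7 : C * B.card * (3 * (N * t) + e / (8 * K) + e / (8 * K)) ≤
      K * (3 * (e / (12 * K)) + e / (8 * K) + e / (8 * K)) := by
    have h8 : 0 ≤ e / (8 * K) := by positivity
    refine mul_le_mul h6 (by linarith) (by linarith) hK0.le
  have h9 : K * (3 * (e / (12 * K)) + e / (8 * K) + e / (8 * K)) = e / 2 := by
    field_simp
    ring
  have h10 : e / 4 + C * (B.card * (N * t + e / (8 * K) + e / (8 * K))) +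
      C * B.card * (2 * (N * t)) =
      e / 4 + C * B.card * (3 * (N * t) + e / (8 * K) + e / (8 * K)) := by ring
  linarith

theorem main : Pool.Agent.W792.WA.S_SYMB → Pool.Agent.W792.WA.S_CSYM →
    Pool.Agent.W792.WA.S_PSI → Pool.Agent.W792.WA.S_QL → Pool.Agent.W792.WA.S_FREE →
    Pool.Agent.W792.WA.S_SMALL := by
  intro hS hC hP hQ hF ν _ d s U hs hU hpsi e he
  obtain ⟨δ₁, hδ₁, hA⟩ := partA hS hC hP hQ hF ν s U hs hU hpsi e he
  obtain ⟨δ₂, hδ₂, hB⟩ := partB hS hC hP hQ hF ν s U hs hU hpsi e he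
  refine ⟨min δ₁ δ₂, lt_min hδ₁ hδ₂, fun W hW hx => ?_⟩
  rw [Rd_coe s U W hs hU hW] at hx
  exact ⟨hA W hW fun x => (hx x).trans (min_le_left _ _),
    hB W hW fun x => (hx x).trans (min_le_right _ _)⟩

end

end Pool.Agent.W214.WA
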